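import Pool.Agent.Helper87.VM.Lib2

/-!
Module LIFT of the existence theorem on isotrivial VMRT (`MP_39dd1a_ag`): vertical morphisms
to the quotient lift to the blow-up.
-/

set_option autoImplicit false

namespace Pool.Agent.Helper87.VM

open MvPolynomial Pool.Agent.Helper48.VMRT

/-- Vectors with equal pure tensor powers differ by a root of unity. -/
theorem lift_root {κ : Type} (m : ℕ) (x y : κ → ℂ)
    (h : ∀ I : Fin (m + 1) → κ, ∏ j, x (I j) = ∏ j, y (I j)) :
    ∃ ζ : ℂ, ζ ^ (m + 1) = 1 ∧ x = ζ • y := by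
  have hpow : ∀ i, x i ^ (m + 1) = y i ^ (m + 1) := by
    intro i
    have h1 := h (fun _ => i)
    rw [Finset.prod_const, Finset.prod_const, Finset.card_univ, Fintype.card_fin] at h1
    exact h1
  by_cases hy : y = 0
  · refine ⟨1, one_pow _, ?_⟩
    funext i
    have h1 := hpow i
    rw [hy, Pi.zero_apply, zero_pow (Nat.succ_ne_zero m)] at h1
    rw [hy, one_smul, Pi.zero_apply]
    exact eq_zero_of_pow_eq_zero h1
  · obtain ⟨i0, hi0⟩ := Function.ne_iff.1 hy
    have hy0 : y i0 ≠ 0 := hi0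
    have hp0 := hpow i0
    refine ⟨x i0 / y i0, ?_, ?_⟩
    · rw [div_pow, hp0]
      exact div_self (pow_ne_zero _ hy0)
    · funext i
      have h1 := h (Fin.cons i (fun _ => i0))
      rw [Fin.prod_univ_succ, Fin.prod_univ_succ] at h1
      simp only [Fin.cons_zero, Fin.cons_succ, Finset.prod_const, Finset.card_univ,
        Fintype.card_fin] at h1
      have h2 : y i0 ^ m * (x i * y i0) = y i0 ^ m * (x i0 * y i) := by
        have h3 : x i * x i0 ^ (m + 1) = x i0 * y i * y i0 ^ m := by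
          rw [pow_succ]
          linear_combination x i0 * h1
        rw [hp0, pow_succ] at h3
        linear_combination h3
      have h4 := mul_left_cancel₀ (pow_ne_zero m hy0) h2
      rw [Pi.smul_apply, smul_eq_mul, div_mul_eq_mul_div, eq_div_iff hy0]
      exact h4

/-- The composition of a vector of binary forms with a linear form. -/
noncomputable def lift_comp {n : ℕ} (l : (Fin n → ℂ) →ₗ[ℂ] ℂ) (c : Fin n → Polynomial ℂ) :
    Polynomial ℂ :=
  ∑ i, Polynomial.C (l (Pi.single i 1)) * c i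

theorem lift_hev_comp {n : ℕ} (l : (Fin n → ℂ) →ₗ[ℂ] ℂ) (c : Fin n → Polynomial ℂ) (e : ℕ)
    (s t : ℂ) : hev e (lift_comp l c) s t = l (hevv e c s t) := by
  rw [lift_comp, hev_sum]
  simp only [hev_C_mul]
  conv_rhs => rw [← Finset.univ_sum_single (hevv e c s t), map_sum]
  refine Finset.sum_congr rfl fun i _ => ?_
  have h1 : (Pi.single i (hevv e c s t i) : Fin n → ℂ) = hevv e c s t i • Pi.single i 1 := by
    rw [← Pi.single_smul]
    simp
  rw [h1, map_smul, smul_eq_mul, mul_comm]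
  rfl

theorem lift_natDegree_comp {n : ℕ} (l : (Fin n → ℂ) →ₗ[ℂ] ℂ) (c : Fin n → Polynomial ℂ)
    (e : ℕ) (hc : ∀ i, (c i).natDegree ≤ e) : (lift_comp l c).natDegree ≤ e := by
  rw [lift_comp]
  refine Polynomial.natDegree_sum_le_of_forall_le _ _ fun i _ => ?_
  exact (Polynomial.natDegree_C_mul_le _ _).trans (hc i)

section Phi

variable {G κB κY : Type} [Group G] [Fintype G] [Fintype κB] [Fintype κY]

/-- The invariant bihomogeneous forms separating the sheets. -/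
noncomputable def lift_phi (ρB : G →* ((κB → ℂ) →ₗ[ℂ] (κB → ℂ)))
    (ρY : G →* ((κY → ℂ) →ₗ[ℂ] (κY → ℂ))) (q : MvPolynomial κB ℂ) {k : ℕ}
    (I : Fin k → κY) : MvPolynomial (κB ⊕ κY) ℂ :=
  ∑ g : G, pull ((ρB g).comp (LinearMap.funLeft ℂ ℂ (Sum.inl : κB → κB ⊕ κY))) q *
    ∏ j, linp ((LinearMap.proj (I j) : (κY → ℂ) →ₗ[ℂ] ℂ).comp
      ((ρY g).comp (LinearMap.funLeft ℂ ℂ (Sum.inr : κY → κB ⊕ κY))))

theorem lift_eval_phi (ρB : G →* ((κB → ℂ) →ₗ[ℂ] (κB → ℂ)))
    (ρY : G →* ((κY → ℂ) →ₗ[ℂ] (κY → ℂ))) (q : MvPolynomial κB ℂ) {k : ℕ}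
    (I : Fin k → κY) (β : κB → ℂ) (y : κY → ℂ) :
    eval (Sum.elim β y) (lift_phi ρB ρY q I) =
      ∑ g : G, eval (ρB g β) q * ∏ j, (ρY g y) (I j) := by
  rw [lift_phi, map_sum]
  refine Finset.sum_congr rfl fun g _ => ?_
  rw [map_mul, eval_pull, map_prod]
  have h1 : LinearMap.funLeft ℂ ℂ (Sum.inl : κB → κB ⊕ κY) (Sum.elim β y) = β := rfl
  have h2 : LinearMap.funLeft ℂ ℂ (Sum.inr : κY → κB ⊕ κY) (Sum.elim β y) = y := rfl
  rw [LinearMap.comp_apply, h1]
  refine congrArg _ (Finset.prod_congr rfl fun j _ => ?_)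
  rw [eval_linp, LinearMap.comp_apply, LinearMap.comp_apply, h2]
  rfl

theorem lift_phi_hom (ρB : G →* ((κB → ℂ) →ₗ[ℂ] (κB → ℂ)))
    (ρY : G →* ((κY → ℂ) →ₗ[ℂ] (κY → ℂ))) (q : MvPolynomial κB ℂ) {T k : ℕ}
    (hq : HomE T q) (I : Fin k → κY) : BiHom T k (lift_phi ρB ρY q I) := by
  intro a c β y
  rw [lift_eval_phi, lift_eval_phi, Finset.mul_sum]
  refine Finset.sum_congr rfl fun g _ => ?_
  rw [map_smul, map_smul, hq a (ρB g β)]
  simp only [Pi.smul_apply, smul_eq_mul, Finset.prod_mul_distrib, Finset.prod_const,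
    Finset.card_univ, Fintype.card_fin]
  ring

theorem lift_phi_inv (ρB : G →* ((κB → ℂ) →ₗ[ℂ] (κB → ℂ)))
    (ρY : G →* ((κY → ℂ) →ₗ[ℂ] (κY → ℂ))) (q : MvPolynomial κB ℂ) {k : ℕ}
    (I : Fin k → κY) : BiInv ρB ρY (lift_phi ρB ρY q I) := by
  intro h β y
  rw [lift_eval_phi, lift_eval_phi]
  refine Fintype.sum_equiv (Equiv.mulRight h) _ _ fun g => ?_
  rw [Equiv.coe_mulRight, map_mul, map_mul, Module.End.mul_apply, Module.End.mul_apply]

theorem lift_phi_at (ρB : G →* ((κB → ℂ) →ₗ[ℂ] (κB → ℂ)))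
    (ρY : G →* ((κY → ℂ) →ₗ[ℂ] (κY → ℂ))) (q : MvPolynomial κB ℂ) {k : ℕ}
    (I : Fin k → κY) (b : κB → ℂ) (y : κY → ℂ) (h1 : eval b q = 1)
    (h2 : ∀ g : G, g ≠ 1 → eval (ρB g b) q = 0) :
    eval (Sum.elim b y) (lift_phi ρB ρY q I) = ∏ j, y (I j) := by
  classical
  rw [lift_eval_phi, Finset.sum_eq_single (1 : G)]
  · rw [map_one, map_one, Module.End.one_apply, Module.End.one_apply, h1, one_mul]
  · intro g _ hg
    rw [h2 g hg, zero_mul]
  · intro hn
    exact absurd (Finset.mem_univ _) hn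

end Phi

theorem st_LIFT (hB : ST_BUMP0) (hF : ST_FAC2) : ST_LIFT := by
  intro D hD e c b hc hb hb0 hy
  have hk := hD.kpos
  have hT : Fintype.card D.G ≤ D.k * D.t + 1 := by
    have h1 := hD.kG
    have h2 := hD.tbig
    have h3 : 1 ≤ D.t := by omega
    have h4 : D.k * 1 ≤ D.k * D.t := Nat.mul_le_mul_left _ h3
    omega
  obtain ⟨q, hq, hq1, hq0⟩ := hB D.G D.κB (prep D.π) D.B (D.k * D.t) hD.Bfree hT b hb hb0
  -- the linear forms
  have hl : ∀ I : Fin D.k → Option (Fin D.w) × D.ν,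
      ∃ l : (Fin (D.N + 1) → ℂ) →ₗ[ℂ] ℂ, ∀ y, l (ev2 D.E b y) = ∏ j, y (I j) := by
    intro I
    obtain ⟨l, hl⟩ := hD.xd.lin (lift_phi (prep D.π) D.ρY q I)
      (lift_phi_hom (prep D.π) D.ρY q hq I) (lift_phi_inv (prep D.π) D.ρY q I)
    exact ⟨l, fun y => by rw [hl, lift_phi_at _ _ _ _ _ _ hq1 hq0]⟩
  choose l hl using hl
  -- the value at every point
  have hall : ∀ s t : ℂ, ∃ y ∈ D.Y, hevv e c s t = ev2 D.E b y := by
    intro s t
    by_cases hst : (s, t) = (0, 0)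
    · have hs : s = 0 := congrArg Prod.fst hst
      have ht : t = 0 := congrArg Prod.snd hst
      subst hs
      subst ht
      have h1 : hevv e c 0 0 = (0 : ℂ) ^ e • hevv e c 1 0 := by
        funext i
        have h2 := hev_smul_smul e (c i) 0 1 0
        rw [zero_mul, zero_mul] at h2
        rw [Pi.smul_apply, smul_eq_mul]
        exact h2
      rcases Nat.eq_zero_or_pos e with he | he
      · obtain ⟨y, hyY, hy1⟩ := hy 1 0 (by simp)
        refine ⟨y, hyY, ?_⟩
        rw [h1, ← hy1, he, pow_zero, one_smul]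
      · refine ⟨0, yc_zero_mem D.F, ?_⟩
        have h3 := ev2_smul_right hD.xd.hom 0 b 0
        rw [zero_smul, zero_pow (by omega), zero_smul] at h3
        rw [h1, zero_pow (by omega), zero_smul, h3]
    · exact hy s t hst
  let u : (Fin D.k → Option (Fin D.w) × D.ν) → Polynomial ℂ := fun I => lift_comp (l I) c
  have hu : ∀ (s t : ℂ) (I : Fin D.k → Option (Fin D.w) × D.ν),
      hevv e u s t I = l I (hevv e c s t) := fun s t I => lift_hev_comp (l I) c e s t
  have hMor : Mor e u := by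
    refine ⟨fun I => lift_natDegree_comp (l I) c e hc.deg, fun s t hst h0 => ?_⟩
    obtain ⟨y, hyY, hy1⟩ := hy s t hst
    have hne := hc.ne s t hst
    have hy0 : y = 0 := by
      by_contra hyn
      obtain ⟨i0, hi0⟩ := Function.ne_iff.1 hyn
      have h1 := congrFun h0 (fun _ => i0)
      rw [hu, hy1, hl, Finset.prod_const] at h1
      exact pow_ne_zero _ hi0 h1
    apply hne
    rw [hy1, hy0]
    have h3 := ev2_smul_right hD.xd.hom 0 b 0
    rw [zero_smul, zero_pow (by omega), zero_smul] at h3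
    exact h3
  obtain ⟨e', p, he, hp, hup⟩ := hF (Option (Fin D.w) × D.ν) D.k e u hk hMor (by
    intro s t
    obtain ⟨y, hyY, hy1⟩ := hall s t
    refine ⟨y, fun I => ?_⟩
    rw [hu, hy1, hl])
  have key : ∀ s t : ℂ, hevv e' p s t ∈ D.Y ∧
      hevv e c s t = ev2 D.E b (hevv e' p s t) := by
    intro s t
    obtain ⟨y, hyY, hy1⟩ := hall s t
    obtain ⟨m, hm⟩ : ∃ m, D.k = m + 1 := ⟨D.k - 1, by omega⟩
    have h1 : ∀ I : Fin D.k → Option (Fin D.w) × D.ν,
        ∏ j, hevv e' p s t (I j) = ∏ j, y (I j) := by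
      intro I
      have h2 : hevv e u s t I = ∏ j, y (I j) := by rw [hu, hy1, hl]
      rw [← h2]
      have h3 := hev_prod (Finset.univ : Finset (Fin D.k)) (e := e')
        (p := fun j => p (I j)) (fun j _ => hp.deg (I j)) s t
      rw [Finset.card_univ, Fintype.card_fin, mul_comm e' D.k, ← he, ← hup I] at h3
      exact h3.symm
    have h4 : ∃ ζ : ℂ, ζ ^ D.k = 1 ∧ hevv e' p s t = ζ • y := by
      revert h1
      rw [hm]
      intro h1
      exact lift_root m _ _ h1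
    obtain ⟨ζ, hζ, hw⟩ := h4
    rw [hw]
    refine ⟨yc_cone ζ hyY, ?_⟩
    rw [ev2_smul_right hD.xd.hom, hζ, one_smul, hy1]
  exact ⟨e', p, he, hp, fun s t => (key s t).1, fun s t => (key s t).2⟩

end Pool.Agent.Helper87.VM
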