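import Pool.Agent.Helper87.VM.Lib2

/-!
Module TP of the existence theorem on isotrivial VMRT (`MP_39dd1a_ag`): tensor powers
(Veronese embeddings) of projective manifolds.
-/

set_option autoImplicit false

namespace Pool.Agent.Helper87.VM

open MvPolynomial Pool.Agent.Helper48.VMRT

/-- Monomials of degree `t` are products of `t` variables. -/
theorem tp_monomial {κ : Type} (t : ℕ) : ∀ m : κ →₀ ℕ, m.degree = t →
    ∃ I : Fin t → κ, (monomial m (1 : ℂ)) = ∏ j, X (I j) := by
  classical
  induction t with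
  | zero =>
    intro m hm
    have h0 : m = 0 := (Finsupp.degree_eq_zero_iff m).1 hm
    subst h0
    refine ⟨Fin.elim0, ?_⟩
    simp
  | succ t ih =>
    intro m hm
    have h1 : ∃ i, m i ≠ 0 := by
      by_contra hn
      push Not at hn
      have h2 : m = 0 := Finsupp.ext hn
      rw [h2, map_zero] at hm
      omega
    obtain ⟨i, hi⟩ := h1
    have hle : Finsupp.single i 1 ≤ m := by
      rw [Finsupp.single_le_iff]
      omega
    have h3 : m - Finsupp.single i 1 + Finsupp.single i 1 = m := tsub_add_cancel_of_le hle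
    have h4 : (m - Finsupp.single i 1).degree = t := by
      have h5 := congrArg Finsupp.degree h3
      rw [map_add, Finsupp.degree_single, hm] at h5
      omega
    obtain ⟨I, hI⟩ := ih _ h4
    refine ⟨Fin.cons i I, ?_⟩
    rw [Fin.prod_univ_succ]
    simp only [Fin.cons_zero, Fin.cons_succ]
    rw [← hI, X, monomial_mul, mul_one, add_comm, h3]

/-- Forms of degree `t` are linear combinations of products of `t` variables. -/
theorem tp_span {κ : Type} (t : ℕ) (p : MvPolynomial κ ℂ) (hp : HomE t p) :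
    p ∈ Submodule.span ℂ (Set.range (tpp t : (Fin t → κ) → MvPolynomial κ ℂ)) := by
  classical
  have hh := isHomogeneous_of_homE hp
  rw [← support_sum_monomial_coeff p]
  refine Submodule.sum_mem _ fun m hm => ?_
  have hd : m.degree = t := by
    rw [Finsupp.degree_eq_weight_one]
    exact hh (mem_support_iff.1 hm)
  obtain ⟨I, hI⟩ := tp_monomial t m hd
  have h1 : monomial m (coeff m p) = coeff m p • monomial m (1 : ℂ) := by
    rw [smul_monomial, smul_eq_mul, mul_one]
  rw [h1, hI]
  exact Submodule.smul_mem _ _ (Submodule.subset_span ⟨I, rfl⟩)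

theorem tp_homE {κ : Type} (t : ℕ) (I : Fin t → κ) : HomE t (tpp t I) := by
  have h := HomE.prod (κ := κ) (A := (Finset.univ : Finset (Fin t)))
    (p := fun j => (X (I j) : MvPolynomial κ ℂ)) (k := 1) (fun j _ => homE_X (I j))
  rw [one_mul, Finset.card_univ, Fintype.card_fin] at h
  exact h

theorem st_TP (h : ST_QUO) : ST_TP := by
  intro κ _ _ n t B hB ht
  have hρ : ∀ (g : Unit) (x : κ → ℂ),
      (1 : Unit →* ((κ → ℂ) →ₗ[ℂ] (κ → ℂ))) g x = x := by
    intro g x
    rw [MonoidHom.one_apply, Module.End.one_apply]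
  have hfree : FreeAct (1 : Unit →* ((κ → ℂ) →ₗ[ℂ] (κ → ℂ))) B := by
    refine ⟨fun g x hx => ?_, fun g hg => absurd (Subsingleton.elim g 1) hg⟩
    rw [hρ]
    exact hx
  obtain ⟨q1, q2, q3, q4, q5⟩ := h Unit κ (Fin t → κ) n 1 B t (tpp t) hB hfree ht
    (by rw [Fintype.card_unit]; omega) (tp_homE t)
    (fun I g x => by rw [hρ]) (fun p hp _ => tp_span t p hp)
  refine ⟨q1, q2, ?_, q4, q5⟩
  intro b hb hb0 b' hb' hb0' a hab
  obtain ⟨g, c, hc⟩ := q3 b hb hb0 b' hb' hb0' a hab
  rw [hρ] at hc
  exact ⟨c, hc⟩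

end Pool.Agent.Helper87.VM
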